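import Mathlib
import Pool.Agent.V8H67.CGU.Count

/-!
# Almost all isomorphism classes of convex geometries are primitive (MP_0c861e, Q2)
-/

set_option autoImplicit false

namespace Pool.Agent.Results.MP_0c861e_co.UnlabelledPrimitive

open Finset Pool.Agent.R129.CG Pool.Agent.V8H67.CGU

/-- The number `U_n` of isomorphism classes of convex geometries on `n` elements. -/
noncomputable def U (n : ℕ) : ℕ := classes n IsCG

/-- The number of isomorphism classes of primitive convex geometries on `n` elements. -/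
noncomputable def Upr (n : ℕ) : ℕ := classes n (fun G => IsCG G ∧ Primitive G)

/-- The number of isomorphism classes of convex geometries on `n` elements which are not
primitive. -/
noncomputable def N (n : ℕ) : ℕ := classes n (fun G => IsCG G ∧ ¬ Primitive G)

lemma U_succ (n : ℕ) : 2 ^ n * U n ≤ (n + 1) * U (n + 1) := classes_succ n

lemma U_le (n : ℕ) : U n ≤ 2 ^ 2 ^ n := cl_le n

lemma U_anti (m k : ℕ) (hk : 1 ≤ k) : 2 ^ (m.choose k) ≤ (m + 1).factorial * U (m + 1) := by
  have h := num_antichain m k hk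
  rw [← num_congr (finSuccEquiv m)] at h
  exact h.trans (num_le_factorial (m + 1))

lemma U_pos (n : ℕ) : 0 < U n := by
  have : Nonempty (Cl n) := by
    refine ⟨Quotient.mk _ ⟨Set.univ, trivial, fun _ _ _ _ => trivial, fun F _ hne => ?_⟩⟩
    have : (Fᶜ).Nonempty := by
      rw [Set.nonempty_compl]
      exact hne
    obtain ⟨x, hx⟩ := this
    exact ⟨x, hx, trivial⟩
  exact Nat.card_pos

lemma T_succ (n : ℕ) : 2 ^ n * (n.factorial * U n) ≤ (n + 1).factorial * U (n + 1) := by
  have h := U_succ n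
  calc 2 ^ n * (n.factorial * U n) = n.factorial * (2 ^ n * U n) := by ring
    _ ≤ n.factorial * ((n + 1) * U (n + 1)) := Nat.mul_le_mul_left _ h
    _ = (n + 1).factorial * U (n + 1) := by rw [Nat.factorial_succ]; ring

lemma T_add (b k : ℕ) :
    2 ^ (k * b) * (b.factorial * U b) ≤ (b + k).factorial * U (b + k) := by
  induction k with
  | zero => simp
  | succ k ih =>
    have h := T_succ (b + k)
    calc 2 ^ ((k + 1) * b) * (b.factorial * U b) =
        2 ^ b * (2 ^ (k * b) * (b.factorial * U b)) := by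
          rw [Nat.succ_mul, pow_add]; ring
      _ ≤ 2 ^ (b + k) * ((b + k).factorial * U (b + k)) :=
          Nat.mul_le_mul (Nat.pow_le_pow_right (by norm_num) (by omega)) ih
      _ ≤ (b + (k + 1)).factorial * U (b + (k + 1)) := h

/-- The classes on `b` elements against those on `b + k`. -/
lemma U_add {b k t : ℕ} (ht : b + k ≤ 2 ^ t) : 2 ^ (k * b) * U b ≤ 2 ^ (t * k) * U (b + k) := by
  have h := T_add b k
  have h1 : (b + k).factorial ≤ b.factorial * 2 ^ (t * k) := by
    rw [← Nat.factorial_mul_ascFactorial]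
    apply Nat.mul_le_mul_left
    calc (b + 1).ascFactorial k ≤ (b + k) ^ k := Nat.ascFactorial_le_pow_add b k
      _ ≤ (2 ^ t) ^ k := Nat.pow_le_pow_left ht k
      _ = 2 ^ (t * k) := by rw [pow_mul]
  have h2 : b.factorial * (2 ^ (k * b) * U b) ≤ b.factorial * (2 ^ (t * k) * U (b + k)) := by
    calc b.factorial * (2 ^ (k * b) * U b) = 2 ^ (k * b) * (b.factorial * U b) := by ring
      _ ≤ (b + k).factorial * U (b + k) := h
      _ ≤ (b.factorial * 2 ^ (t * k)) * U (b + k) := Nat.mul_le_mul_right _ h1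
      _ = b.factorial * (2 ^ (t * k) * U (b + k)) := by ring
  exact Nat.le_of_mul_le_mul_left h2 (Nat.factorial_pos b)

lemma pow_t (t : ℕ) (ht : 11 ≤ t) : 128 * t + 126 ≤ 2 ^ t := by
  induction t, ht using Nat.le_induction with
  | base => norm_num
  | succ t _ ih => rw [pow_succ]; omega

/-- The terms with intermediate fibers. -/
lemma term (n a : ℕ) (ha : 3 ≤ a) (hab : 2 * a ≤ n + 1) (hn : 2 ^ 21 ≤ n) :
    (a * U a) * ((n + 1 - a) * U (n + 1 - a)) * 2 ^ n ≤ U n := by
  obtain ⟨b, hb⟩ : ∃ b, b = n + 1 - a := ⟨_, rfl⟩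
  have hn' : 2097152 ≤ n := by norm_num at hn; exact hn
  have hnb : b + (a - 1) = n := by omega
  obtain ⟨t, ht⟩ : ∃ t, t = b / 64 := ⟨_, rfl⟩
  have ht1 : 64 * t ≤ b := by omega
  have ht2 : b < 64 * t + 64 := by omega
  have hnt : n ≤ 2 ^ t := by
    have := pow_t t (by omega)
    omega
  rw [← hb]
  have hat : a ≤ 2 ^ t := by omega
  have hbt : b ≤ 2 ^ t := by omega
  have ha2 := U_le a
  rcases Nat.lt_or_ge (16 * n) (2 ^ a) with hbig | hsmall
  · -- very large fibers
    have hmid := U_anti (n - 1) ((n - 1) / 2) (by omega)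
    rw [show n - 1 + 1 = n by omega] at hmid
    set C := (n - 1).choose ((n - 1) / 2) with hC
    have hsum : 2 ^ (n - 1) ≤ n * C := by
      rw [← Nat.sum_range_choose (n - 1), show n - 1 + 1 = n by omega]
      calc ∑ i ∈ range n, (n - 1).choose i ≤ ∑ _i ∈ range n, C :=
            sum_le_sum (fun i _ => Nat.choose_le_middle i (n - 1))
        _ = n * C := by rw [sum_const, card_range, smul_eq_mul]
    have hcu : ∀ n, 20 ≤ n → 4 * n ^ 3 ≤ 2 ^ (n - 2) := by
      intro n hn
      induction n, hn using Nat.le_induction with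
      | base => norm_num
      | succ n hn ih =>
        have e1 : 2 ^ (n + 1 - 2) = 2 * 2 ^ (n - 2) := by
          rw [show n + 1 - 2 = n - 2 + 1 by omega, pow_succ']
        have e2 : (n + 1) ^ 3 ≤ 2 * n ^ 3 := by nlinarith [Nat.mul_le_mul hn hn]
        rw [e1]
        calc 4 * (n + 1) ^ 3 ≤ 4 * (2 * n ^ 3) := Nat.mul_le_mul_left _ e2
          _ = 2 * (4 * n ^ 3) := by ring
          _ ≤ 2 * 2 ^ (n - 2) := Nat.mul_le_mul_left _ ih
    have hcu' := hcu n (by omega)
    have h1 : n * 2 ^ (b + 1) ≤ 2 ^ (n - 2) := by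
      have h2 : 16 * (n * 2 ^ (b + 1)) ≤ 16 * 2 ^ (n - 2) := by
        calc 16 * (n * 2 ^ (b + 1)) = (16 * n) * 2 ^ (b + 1) := by ring
          _ ≤ 2 ^ a * 2 ^ (b + 1) := Nat.mul_le_mul_right _ hbig.le
          _ = 2 ^ (n + 2) := by rw [← pow_add]; congr 1; omega
          _ = 16 * 2 ^ (n - 2) := by
              rw [show n + 2 = 4 + (n - 2) by omega, pow_add]; norm_num
      omega
    have htn : t ≤ n := by omega
    have h3 : 2 ^ (b + 1) + (2 * t + n + t * n) ≤ C := by
      have h4 : n * (2 ^ (b + 1) + (2 * t + n + t * n)) ≤ n * C := by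
        refine le_trans ?_ hsum
        have e : 2 ^ (n - 1) = 2 ^ (n - 2) + 2 ^ (n - 2) := by
          rw [show n - 1 = n - 2 + 1 by omega, pow_succ]; ring
        rw [e, mul_add]
        refine Nat.add_le_add h1 (le_trans ?_ hcu')
        have h5 : 2 * t + n + t * n ≤ 4 * n ^ 2 := by nlinarith
        calc n * (2 * t + n + t * n) ≤ n * (4 * n ^ 2) := Nat.mul_le_mul_left _ h5
          _ = 4 * n ^ 3 := by ring
      exact Nat.le_of_mul_le_mul_left h4 (by omega)
    have hbb := U_le b
    have hab' : 2 ^ a ≤ 2 ^ b := Nat.pow_le_pow_right (by norm_num) (by omega)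
    have hfac : n.factorial ≤ 2 ^ (t * n) := by
      calc n.factorial ≤ n ^ n := Nat.factorial_le_pow n
        _ ≤ (2 ^ t) ^ n := Nat.pow_le_pow_left hnt n
        _ = 2 ^ (t * n) := by rw [pow_mul]
    have h6 : 2 ^ (t * n) * ((a * U a) * (b * U b) * 2 ^ n) ≤ 2 ^ (t * n) * U n := by
      calc 2 ^ (t * n) * ((a * U a) * (b * U b) * 2 ^ n)
          ≤ 2 ^ (t * n) * ((2 ^ t * 2 ^ 2 ^ a) * (2 ^ t * 2 ^ 2 ^ b) * 2 ^ n) := by gcongr
        _ = 2 ^ (2 ^ a + 2 ^ b + (2 * t + n + t * n)) := by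
            rw [← pow_add, ← pow_add, ← pow_add, ← pow_add, ← pow_add]
            congr 1
            ring
        _ ≤ 2 ^ C := by
            apply Nat.pow_le_pow_right (by norm_num)
            rw [pow_succ] at h3
            omega
        _ ≤ n.factorial * U n := hmid
        _ ≤ 2 ^ (t * n) * U n := Nat.mul_le_mul_right _ hfac
    exact Nat.le_of_mul_le_mul_left h6 (by positivity)
  · have hU : 2 ^ ((a - 1) * (b - t)) * U b ≤ U n := by
      have h := U_add (b := b) (k := a - 1) (t := t) (by rw [hnb]; exact hnt)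
      rw [hnb] at h
      have e : (a - 1) * b = t * (a - 1) + (a - 1) * (b - t) := by
        obtain ⟨s, hs⟩ : ∃ s, b = t + s := ⟨b - t, by omega⟩
        rw [hs, Nat.add_sub_cancel_left]
        ring
      rw [e, pow_add, mul_assoc] at h
      exact Nat.le_of_mul_le_mul_left h (by positivity)
    have key : 2 * t + 2 ^ a + n ≤ (a - 1) * (b - t) := by
      rcases Nat.lt_or_ge a 4 with h4 | h4
      · have h3 : a = 3 := by omega
        subst h3
        norm_num
        omega
      · rcases Nat.lt_or_ge a 21 with h21 | h21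
        · have h5 : 2 ^ a ≤ 2 ^ 20 := Nat.pow_le_pow_right (by norm_num) (by omega)
          have h6 : 3 * (b - t) ≤ (a - 1) * (b - t) := Nat.mul_le_mul_right _ (by omega)
          norm_num at h5
          omega
        · have h7 : ∀ a, 21 ≤ a → 320 * a ≤ 2 ^ a := by
            intro a ha
            induction a, ha using Nat.le_induction with
            | base => norm_num
            | succ a _ ih => rw [pow_succ]; omega
          have h8 := h7 a h21
          have h6 : 20 * (b - t) ≤ (a - 1) * (b - t) := Nat.mul_le_mul_right _ (by omega)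
          omega
    calc (a * U a) * (b * U b) * 2 ^ n ≤ (2 ^ t * 2 ^ 2 ^ a) * (2 ^ t * U b) * 2 ^ n := by gcongr
      _ = 2 ^ (2 * t + 2 ^ a + n) * U b := by
          rw [pow_add, pow_add, two_mul, pow_add]; ring
      _ ≤ 2 ^ ((a - 1) * (b - t)) * U b := by
          gcongr
          norm_num
      _ ≤ U n := hU

lemma N_bound (n : ℕ) (hn : 2 ^ 21 ≤ n) : N n * 2 ^ n ≤ 128 * n ^ 3 * U n := by
  have hn' : 2097152 ≤ n := by norm_num at hn; exact hn
  have hprev := U_succ (n - 1)
  rw [show n - 1 + 1 = n by omega] at hprev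
  have h2 := U_le 2
  have each : ∀ j : {j : Fin (n + 1) // 2 ≤ j.1 ∧ j.1 < n},
      (j.1.1 * U j.1.1) * ((n + 1 - j.1.1) * U (n + 1 - j.1.1)) * 2 ^ n ≤ 64 * n ^ 2 * U n := by
    rintro ⟨⟨j, hj⟩, hj2, hjn⟩
    simp only at hj2 hjn ⊢
    have hsmall : (2 * U 2) * ((n - 1) * U (n - 1)) * 2 ^ n ≤ 64 * n ^ 2 * U n := by
      calc (2 * U 2) * ((n - 1) * U (n - 1)) * 2 ^ n
          ≤ (2 * 2 ^ 2 ^ 2) * (n * U (n - 1)) * 2 ^ n := by gcongr; omega
        _ = 64 * n * (2 ^ (n - 1) * U (n - 1)) := by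
            have : 2 ^ n = 2 * 2 ^ (n - 1) := by
              rw [← pow_succ']; congr 1; omega
            rw [this]; norm_num; ring
        _ ≤ 64 * n * (n * U n) := Nat.mul_le_mul_left _ hprev
        _ = 64 * n ^ 2 * U n := by ring
    have hbig : U n ≤ 64 * n ^ 2 * U n := by
      have : 1 ≤ 64 * n ^ 2 := by
        have : 1 ≤ n ^ 2 := Nat.one_le_pow _ _ (by omega)
        omega
      calc U n = 1 * U n := (one_mul _).symm
        _ ≤ 64 * n ^ 2 * U n := Nat.mul_le_mul_right _ this
    by_cases hj2' : j = 2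
    · subst hj2'
      rw [show n + 1 - 2 = n - 1 by omega]
      exact hsmall
    · by_cases hj3 : j = n - 1
      · subst hj3
        rw [show n + 1 - (n - 1) = 2 by omega, mul_comm ((n - 1) * U (n - 1))]
        exact hsmall
      · rcases Nat.lt_or_ge (n + 1) (2 * j) with h5 | h5
        · have := term n (n + 1 - j) (by omega) (by omega) hn
          rw [show n + 1 - (n + 1 - j) = j by omega] at this
          rw [mul_comm (j * U j)]
          exact this.trans hbig
        · exact (term n j (by omega) h5 hn).trans hbig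
  have hcard : Fintype.card {j : Fin (n + 1) // 2 ≤ j.1 ∧ j.1 < n} ≤ n + 1 := by
    have := Fintype.card_subtype_le (fun j : Fin (n + 1) => 2 ≤ j.1 ∧ j.1 < n)
    rwa [Fintype.card_fin] at this
  calc N n * 2 ^ n ≤ (∑ j : {j : Fin (n + 1) // 2 ≤ j.1 ∧ j.1 < n},
        (j.1.1 * U j.1.1) * ((n + 1 - j.1.1) * U (n + 1 - j.1.1))) * 2 ^ n :=
        Nat.mul_le_mul_right _ (nonprimitive_le n)
    _ = ∑ j : {j : Fin (n + 1) // 2 ≤ j.1 ∧ j.1 < n},
        (j.1.1 * U j.1.1) * ((n + 1 - j.1.1) * U (n + 1 - j.1.1)) * 2 ^ n := sum_mul _ _ _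
    _ ≤ ∑ _j : {j : Fin (n + 1) // 2 ≤ j.1 ∧ j.1 < n}, 64 * n ^ 2 * U n :=
        sum_le_sum fun j _ => each j
    _ = Fintype.card {j : Fin (n + 1) // 2 ≤ j.1 ∧ j.1 < n} * (64 * n ^ 2 * U n) := by
        rw [sum_const, card_univ, smul_eq_mul]
    _ ≤ (n + 1) * (64 * n ^ 2 * U n) := Nat.mul_le_mul_right _ hcard
    _ ≤ (2 * n) * (64 * n ^ 2 * U n) := Nat.mul_le_mul_right _ (by omega)
    _ = 128 * n ^ 3 * U n := by ring

/-- **Result.** The proportion of the primitive ones among the isomorphism classes of convex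
geometries on `n` elements tends to `1`. -/
theorem result : Filter.Tendsto (fun n : ℕ => (Upr n : ℝ) / (U n : ℝ)) Filter.atTop (nhds 1) := by
  have h1 : Filter.Tendsto (fun n : ℕ => 128 * ((n : ℝ) ^ 3 / 2 ^ n)) Filter.atTop (nhds 0) := by
    have := (tendsto_pow_const_div_const_pow_of_one_lt 3 (by norm_num : (1 : ℝ) < 2)).const_mul
      128
    simpa using this
  have h2 : Filter.Tendsto (fun n : ℕ => (1 : ℝ) - 128 * ((n : ℝ) ^ 3 / 2 ^ n)) Filter.atTop
      (nhds 1) := by
    have := h1.const_sub 1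
    simpa using this
  refine tendsto_of_tendsto_of_tendsto_of_le_of_le' h2 tendsto_const_nhds ?_ ?_
  · rw [Filter.eventually_atTop]
    refine ⟨2 ^ 21, fun n hn => ?_⟩
    have hU : (0 : ℝ) < U n := by exact_mod_cast U_pos n
    have h5 : ((N n : ℝ)) * 2 ^ n ≤ 128 * (n : ℝ) ^ 3 * U n := by exact_mod_cast N_bound n hn
    have h6 : (U n : ℝ) ≤ Upr n + N n := by exact_mod_cast classes_split n
    have hp : (0 : ℝ) < 2 ^ n := by positivity
    have h7 : (N n : ℝ) / U n ≤ 128 * ((n : ℝ) ^ 3 / 2 ^ n) := by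
      rw [div_le_iff₀ hU, mul_div_assoc', div_mul_eq_mul_div, le_div_iff₀ hp]
      exact h5
    have h8 : 1 - (N n : ℝ) / U n ≤ (Upr n : ℝ) / U n := by
      rw [sub_le_iff_le_add, ← add_div, le_div_iff₀ hU, one_mul]
      exact h6
    linarith
  · refine Filter.Eventually.of_forall (fun n => ?_)
    have hU : (0 : ℝ) < U n := by exact_mod_cast U_pos n
    rw [div_le_one hU]
    exact_mod_cast classes_mono n

end Pool.Agent.Results.MP_0c861e_co.UnlabelledPrimitive
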